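import Mathlib

namespace Pool.Agent.R688.EN

/-- The greatest common divisor of `3x - 1` and `y^2 + y + 2`. -/
def gg (p : ℤ × ℤ) : ℕ := Int.gcd (3 * p.1 - 1) (p.2 ^ 2 + p.2 + 2)

/-- The parity of the exponent of two in `gg`. -/
noncomputable def ff (p : ℤ × ℤ) : ZMod 2 := (padicValNat 2 (gg p) : ZMod 2)

lemma gg_ne (p : ℤ × ℤ) : gg p ≠ 0 := by
  intro h
  have h1 := (Int.gcd_eq_zero_iff.mp h).1
  omega

lemma pow_dvd_gg (p : ℤ × ℤ) (k : ℕ) :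
    2 ^ k ∣ gg p ↔ ((2 : ℤ) ^ k ∣ 3 * p.1 - 1 ∧ (2 : ℤ) ^ k ∣ p.2 ^ 2 + p.2 + 2) := by
  rw [← Int.natCast_dvd_natCast]
  unfold gg
  push_cast
  exact Int.dvd_coe_gcd_iff

lemma gg_dvd (a b n m j : ℤ) :
    ((gg (a + j * n, b + j * m) : ℕ) : ℤ) ∣
      (2 * m - 6 * (m * a - n * b) + 3 * n) ^ 2 + 63 * n ^ 2 := by
  have h1 : ((gg (a + j * n, b + j * m) : ℕ) : ℤ) ∣ 3 * (a + j * n) - 1 := Int.gcd_dvd_left _ _
  have h2 : ((gg (a + j * n, b + j * m) : ℕ) : ℤ) ∣ (b + j * m) ^ 2 + (b + j * m) + 2 :=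
    Int.gcd_dvd_right _ _
  have key : (2 * m - 6 * (m * a - n * b) + 3 * n) ^ 2 + 63 * n ^ 2 =
      36 * n ^ 2 * ((b + j * m) ^ 2 + (b + j * m) + 2)
        - (4 * m ^ 2 * (3 * (a + j * n) - 1) + 4 * m * (2 * m - 6 * (m * a - n * b) + 3 * n))
          * (3 * (a + j * n) - 1) := by ring
  rw [key]
  exact dvd_sub (Dvd.dvd.mul_left h2 _) (Dvd.dvd.mul_left h1 _)

lemma R_ne (a b n m : ℤ) (h : ¬ (n = 0 ∧ m = 0)) :
    (2 * m - 6 * (m * a - n * b) + 3 * n) ^ 2 + 63 * n ^ 2 ≠ 0 := by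
  intro h0
  have hn : n = 0 := by
    by_contra hn
    have : 0 < n ^ 2 := by positivity
    nlinarith [sq_nonneg (2 * m - 6 * (m * a - n * b) + 3 * n)]
  subst hn
  have hm : m ≠ 0 := fun hm => h ⟨rfl, hm⟩
  have h1 : (2 * m - 6 * (m * a - 0 * b) + 3 * 0) ^ 2 = 0 := by linarith
  have h2 : 2 * m - 6 * (m * a - 0 * b) + 3 * 0 = 0 := by
    exact pow_eq_zero_iff (two_ne_zero) |>.mp h1
  have h3 : m * (2 * (1 - 3 * a)) = 0 := by linarith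
  rcases mul_eq_zero.mp h3 with h4 | h4
  · exact hm h4
  · omega

/-- Periodicity along every line. -/
lemma ff_line (a v : ℤ × ℤ) (hv : v ≠ 0) :
    ∃ s : ℕ, ∀ t : ℕ, s ≤ t → ∀ j : ℤ, ff (a + (j + 2 ^ t) • v) = ff (a + j • v) := by
  obtain ⟨a, b⟩ := a
  obtain ⟨n, m⟩ := v
  have hnm : ¬ (n = 0 ∧ m = 0) := by
    rintro ⟨rfl, rfl⟩; exact hv rfl
  set R : ℤ := (2 * m - 6 * (m * a - n * b) + 3 * n) ^ 2 + 63 * n ^ 2 with hR
  have hR0 : R ≠ 0 := R_ne a b n m hnm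
  set e := padicValNat 2 R.natAbs with he
  refine ⟨e + 1, fun t ht j => ?_⟩
  have hpt : ∀ i : ℤ, ((a, b) + i • (n, m) : ℤ × ℤ) = (a + i * n, b + i * m) := by
    intro i; simp
  rw [hpt, hpt]
  unfold ff
  congr 1
  have hRn : R.natAbs ≠ 0 := by simpa using hR0
  have hd : ∀ i : ℤ, padicValNat 2 (gg (a + i * n, b + i * m)) ≤ e := by
    intro i
    have h1 : gg (a + i * n, b + i * m) ∣ R.natAbs := by
      rw [← Int.natCast_dvd]
      exact gg_dvd a b n m i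
    have h2 : 2 ^ padicValNat 2 (gg (a + i * n, b + i * m)) ∣ R.natAbs :=
      dvd_trans pow_padicValNat_dvd h1
    exact (padicValNat_dvd_iff_le hRn).mp h2
  have hstep : ∀ i i' : ℤ, (2 : ℤ) ^ (e + 1) ∣ i' - i → ∀ k, k ≤ e + 1 →
      2 ^ k ∣ gg (a + i * n, b + i * m) → 2 ^ k ∣ gg (a + i' * n, b + i' * m) := by
    intro i i' hii k hk h
    rw [pow_dvd_gg] at h ⊢
    obtain ⟨h1, h2⟩ := h
    have hki : (2 : ℤ) ^ k ∣ i' - i := dvd_trans (pow_dvd_pow 2 hk) hii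
    constructor
    · have : 3 * (a + i' * n) - 1 = (3 * (a + i * n) - 1) + (i' - i) * (3 * n) := by ring
      simp only at h1 ⊢
      rw [this]
      exact dvd_add h1 (Dvd.dvd.mul_right hki _)
    · have : (b + i' * m) ^ 2 + (b + i' * m) + 2 = ((b + i * m) ^ 2 + (b + i * m) + 2)
          + (i' - i) * (m * (2 * b + (i' + i) * m + 1)) := by ring
      simp only at h2 ⊢
      rw [this]
      exact dvd_add h2 (Dvd.dvd.mul_right hki _)
  have hle : ∀ i i' : ℤ, (2 : ℤ) ^ (e + 1) ∣ i' - i →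
      padicValNat 2 (gg (a + i * n, b + i * m)) ≤ padicValNat 2 (gg (a + i' * n, b + i' * m)) := by
    intro i i' hii
    refine (padicValNat_dvd_iff_le (gg_ne _)).mp (hstep i i' hii _ ?_ pow_padicValNat_dvd)
    exact le_trans (hd i) (Nat.le_succ _)
  have hpow : (2 : ℤ) ^ (e + 1) ∣ 2 ^ t := pow_dvd_pow 2 ht
  apply le_antisymm
  · refine hle (j + 2 ^ t) j ?_
    have : j - (j + 2 ^ t) = -(2 ^ t) := by ring
    rw [this]
    exact (dvd_neg).mpr hpow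
  · refine hle j (j + 2 ^ t) ?_
    have : (j + 2 ^ t) - j = (2 ^ t) := by ring
    rw [this]
    exact hpow

lemma hensel (K : ℕ) : ∃ y : ℤ, (2 : ℤ) ^ (K + 1) ∣ y ^ 2 + y + 2 := by
  induction K with
  | zero => exact ⟨0, by norm_num⟩
  | succ K ih =>
    obtain ⟨y, c, hc⟩ := ih
    rcases Int.even_or_odd c with ⟨d, hd⟩ | ⟨d, hd⟩
    · refine ⟨y, d, ?_⟩
      rw [hc, hd]; ring
    · refine ⟨y + 2 ^ (K + 1), d + y + 1 + 2 ^ K, ?_⟩
      have : (y + 2 ^ (K + 1)) ^ 2 + (y + 2 ^ (K + 1)) + 2 =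
          (y ^ 2 + y + 2) + 2 ^ (K + 1) * (2 * y + 1) + (2 ^ (K + 1)) ^ 2 := by ring
      rw [this, hc, hd]
      ring

lemma val_eq {g k : ℕ} (hg : g ≠ 0) (h1 : 2 ^ k ∣ g) (h2 : ¬ 2 ^ (k + 1) ∣ g) :
    padicValNat 2 g = k := by
  have a1 := (padicValNat_dvd_iff_le hg).mp h1
  have a2 : ¬ k + 1 ≤ padicValNat 2 g := fun h => h2 ((padicValNat_dvd_iff_le hg).mpr h)
  omega

lemma val_pt (x y : ℤ) (k : ℕ) (u : ℤ) (hu : Odd u) (hx : 3 * x - 1 = 2 ^ k * u)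
    (hy : (2 : ℤ) ^ (k + 1) ∣ y ^ 2 + y + 2) : padicValNat 2 (gg (x, y)) = k := by
  apply val_eq (gg_ne _)
  · rw [pow_dvd_gg]
    exact ⟨⟨u, hx⟩, dvd_trans (pow_dvd_pow 2 (Nat.le_succ k)) hy⟩
  · rw [pow_dvd_gg]
    rintro ⟨h, _⟩
    simp only [hx] at h
    rw [pow_succ] at h
    have h2 : (2 : ℤ) ∣ u := by
      exact (mul_dvd_mul_iff_left (by positivity)).mp h
    rcases hu with ⟨w, hw⟩
    omega

lemma exists_x (k : ℕ) : ∃ x : ℤ, 3 * x - 1 = - (-2) ^ k := by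
  have h : (1 - (-2) : ℤ) ∣ 1 ^ k - (-2) ^ k := sub_dvd_pow_sub_pow _ _ _
  obtain ⟨x, hx⟩ := h
  refine ⟨x, ?_⟩
  have : (1 : ℤ) ^ k = 1 := one_pow k
  rw [this] at hx
  linarith

lemma neg_two_pow (k : ℕ) : ∃ u : ℤ, Odd u ∧ (-(-2) ^ k : ℤ) = 2 ^ k * u := by
  refine ⟨-(-1) ^ k, ?_, ?_⟩
  · rcases neg_one_pow_eq_or ℤ k with h | h <;> rw [h] <;> decide
  · have : (-2 : ℤ) ^ k = 2 ^ k * (-1) ^ k := by
      rw [← mul_pow]; norm_num
    rw [this]; ring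

lemma shift_val (c : ℕ) (hc : 0 < c) (k : ℕ) (hk : padicValNat 2 c < k) (x y : ℤ)
    (hx : 3 * x - 1 = - (-2) ^ k) (hy : (2 : ℤ) ^ (k + 1) ∣ y ^ 2 + y + 2) :
    padicValNat 2 (gg (x + c, y)) = padicValNat 2 c := by
  set e := padicValNat 2 c with he
  obtain ⟨c', hc'⟩ : 2 ^ e ∣ c := pow_padicValNat_dvd
  have hodd : Odd (c' : ℤ) := by
    rw [Int.odd_coe_nat]
    by_contra hne
    rw [Nat.not_odd_iff_even] at hne
    obtain ⟨d, hd⟩ := hne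
    have : 2 ^ (e + 1) ∣ c := ⟨d, by rw [hc', hd]; ring⟩
    have := (padicValNat_dvd_iff_le hc.ne').mp this
    omega
  obtain ⟨r, hr⟩ : ∃ r, k = e + 1 + r := ⟨k - (e + 1), by omega⟩
  have h2 : (-(-2) ^ k : ℤ) = 2 ^ e * (2 * (- (-1) ^ k * 2 ^ r)) := by
    have : (-2 : ℤ) ^ k = 2 ^ k * (-1) ^ k := by
      rw [← mul_pow]; norm_num
    rw [this]
    have h3 : (2 : ℤ) ^ k = 2 ^ e * 2 * 2 ^ r := by
      rw [hr, pow_add, pow_add]; ring
    rw [h3]; ring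
  refine val_pt (x + c) y e (3 * c' + 2 * (- (-1) ^ k * 2 ^ r)) ?_ ?_ ?_
  · rcases hodd with ⟨w, hw⟩
    exact ⟨3 * w + 1 + (- (-1) ^ k * 2 ^ r), by rw [hw]; ring⟩
  · have hcc : (c : ℤ) = 2 ^ e * c' := by exact_mod_cast hc'
    have : 3 * (x + c) - 1 = (3 * x - 1) + 3 * c := by ring
    rw [this, hx, h2, hcc]; ring
  · exact dvd_trans (pow_dvd_pow 2 (by omega)) hy

/-- No periodicity in the first direction, in a strong form. -/
lemma ff_point (N M : ℕ) (hN : 0 < N) (hM : 0 < M) : ∃ a : ℤ × ℤ, a.2 ≠ 0 ∧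
    ff a + ff (a + ((N : ℤ), 0)) + ff (a + ((M : ℤ), 0)) + ff (a + (((M + N : ℕ) : ℤ), 0)) = 1 := by
  obtain ⟨k, hk1, hk2⟩ : ∃ k : ℕ, (padicValNat 2 N < k ∧ padicValNat 2 M < k ∧
      padicValNat 2 (M + N) < k ∧ 0 < k) ∧ ((k : ZMod 2) + (padicValNat 2 N : ZMod 2)
        + (padicValNat 2 M : ZMod 2) + (padicValNat 2 (M + N) : ZMod 2) = 1) := by
    set c := (padicValNat 2 N : ZMod 2)
        + (padicValNat 2 M : ZMod 2) + (padicValNat 2 (M + N) : ZMod 2) with hc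
    set k0 := padicValNat 2 N + padicValNat 2 M + padicValNat 2 (M + N) + 1 with hk0
    by_cases h : ((k0 : ZMod 2) + c = 1)
    · refine ⟨k0, ⟨by omega, by omega, by omega, by omega⟩, ?_⟩
      rw [← h, hc]; ring
    · refine ⟨k0 + 1, ⟨by omega, by omega, by omega, by omega⟩, ?_⟩
      have h0 : (k0 : ZMod 2) + c = 0 := by
        generalize (k0 : ZMod 2) + c = z at h
        revert z
        decide
      have : ((k0 + 1 : ℕ) : ZMod 2) + (padicValNat 2 N : ZMod 2)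
        + (padicValNat 2 M : ZMod 2) + (padicValNat 2 (M + N) : ZMod 2) = ((k0 : ZMod 2) + c) + 1 := by
        rw [hc]; push_cast; ring
      rw [this, h0]; ring
  obtain ⟨hkN, hkM, hkMN, hk0⟩ := hk1
  obtain ⟨x, hx⟩ := exists_x k
  obtain ⟨y, hy⟩ := hensel (k + 1)
  have hy' : (2 : ℤ) ^ (k + 1) ∣ y ^ 2 + y + 2 := dvd_trans (pow_dvd_pow 2 (by omega)) hy
  refine ⟨(x, y), ?_, ?_⟩
  · intro h0
    simp only at h0
    rw [h0] at hy
    have h4 : (4 : ℤ) ∣ 2 := by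
      have : (2 : ℤ) ^ 2 ∣ (0 : ℤ) ^ 2 + 0 + 2 := dvd_trans (pow_dvd_pow 2 (by omega)) hy
      norm_num at this
    omega
  · have e0 : ff (x, y) = (k : ZMod 2) := by
      obtain ⟨u, hu, hu2⟩ := neg_two_pow k
      unfold ff
      rw [val_pt x y k u hu (by rw [hx, hu2]) hy']
    have hsh : ∀ c : ℕ, ((x, y) + ((c : ℤ), 0) : ℤ × ℤ) = (x + c, y) := by
      intro c; simp
    have e1 : ∀ c : ℕ, 0 < c → padicValNat 2 c < k →
        ff ((x, y) + ((c : ℤ), 0)) = (padicValNat 2 c : ZMod 2) := by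
      intro c hc hck
      rw [hsh]
      unfold ff
      rw [shift_val c hc k hck x y hx hy']
    rw [e0, e1 N hN hkN, e1 M hM hkM, e1 (M + N) (by omega) hkMN]
    exact hk2

end Pool.Agent.R688.EN
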