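import Mathlib

namespace Pool.Agent.R688.EN

/-- `H` has a normal subgroup of exponent dividing `m` with nilpotent quotient. -/
def ExpNil (m : ℕ) (H : Type) [Group H] : Prop :=
  ∃ (K : Subgroup H) (_ : K.Normal), (∀ g ∈ K, g ^ m = 1) ∧ Group.IsNilpotent (H ⧸ K)

/-- `H` has a finite normal subgroup with nilpotent quotient. -/
def FinNil (H : Type) [Group H] : Prop :=
  ∃ (K : Subgroup H) (_ : K.Normal), Finite K ∧ Group.IsNilpotent (H ⧸ K)

/-- `H` has a normal subgroup of exponent dividing `m` with finite-by-nilpotent quotient. -/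
def ExpFinNil (m : ℕ) (H : Type) [Group H] : Prop :=
  ∃ (K : Subgroup H) (_ : K.Normal), (∀ g ∈ K, g ^ m = 1) ∧ FinNil (H ⧸ K)

/-- Every infinite subset contains two different elements `x`, `y` such that
`⟨x, x^y⟩` is (exponent dividing `m`)-by-nilpotent. -/
def InfStar (m : ℕ) (G : Type) [Group G] : Prop :=
  ∀ S : Set G, S.Infinite → ∃ x ∈ S, ∃ y ∈ S, x ≠ y ∧
    ExpNil m (Subgroup.closure ({x, y⁻¹ * x * y} : Set G))

end Pool.Agent.R688.EN
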