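import Mathlib
import Pool.Agent.R688.EN.Arith

namespace Pool.Agent.R688.EN

open scoped commutatorElement

/-- The group ring of `ℤ × ℤ` over the field with two elements. -/
abbrev V := AddMonoidAlgebra (ZMod 2) (ℤ × ℤ)

/-- The monomial `n`, acting as a translation. -/
noncomputable def tr (n : ℤ × ℤ) : V := AddMonoidAlgebra.single n 1

lemma tr_add (n m : ℤ × ℤ) : tr (n + m) = tr n * tr m := by
  unfold tr
  rw [AddMonoidAlgebra.single_mul_single, one_mul]

lemma tr_zero : tr 0 = 1 := rfl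

lemma two_eq : (2 : V) = 0 := by
  have : (2 : V) = algebraMap (ZMod 2) V 2 := (map_ofNat (algebraMap (ZMod 2) V) 2).symm
  rw [this]
  have h : (2 : ZMod 2) = 0 := by decide
  rw [h, map_zero]

lemma tr_neg_mul (n : ℤ × ℤ) : tr (-n) * tr n = 1 := by
  rw [← tr_add]; simp [tr_zero]

lemma coeff_tr_mul (n g : ℤ × ℤ) (w : V) : (tr n * w).coeff g = w.coeff (g - n) := by
  unfold tr
  rw [AddMonoidAlgebra.coeff_single_mul_apply, one_mul]
  congr 1
  abel

/-- The operator `T`. -/
noncomputable def TT (w : V) (g : ℤ × ℤ) : ZMod 2 := w.coeff.sum (fun h c => c * ff (h - g))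

lemma TT_add (v w : V) (g : ℤ × ℤ) : TT (v + w) g = TT v g + TT w g := by
  unfold TT
  rw [AddMonoidAlgebra.coeff_add, Finsupp.sum_add_index']
  · intro a; simp
  · intro a b c; ring

lemma TT_single (h g : ℤ × ℤ) (c : ZMod 2) :
    TT (AddMonoidAlgebra.single h c) g = c * ff (h - g) := by
  unfold TT
  rw [AddMonoidAlgebra.coeff_single, Finsupp.sum_single_index]
  simp

lemma TT_zero (g : ℤ × ℤ) : TT 0 g = 0 := by
  unfold TT
  rw [AddMonoidAlgebra.coeff_zero, Finsupp.sum_zero_index]

lemma TT_neg (v : V) (g : ℤ × ℤ) : TT (-v) g = - TT v g := by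
  have h := TT_add v (-v) g
  rw [add_neg_cancel, TT_zero] at h
  exact (neg_eq_of_add_eq_zero_right h.symm).symm

lemma TT_tr (n g : ℤ × ℤ) (w : V) : TT (tr n * w) g = TT w (g - n) := by
  induction w using AddMonoidAlgebra.induction_linear with
  | zero => rw [mul_zero, TT_zero, TT_zero]
  | add x y hx hy => rw [mul_add, TT_add, TT_add, hx, hy]
  | single h c =>
    unfold tr
    rw [AddMonoidAlgebra.single_mul_single, TT_single, TT_single, one_mul]
    congr 2
    abel

/-- The big group. -/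
@[ext] structure GG where
  /-- component in the group ring -/
  v : V
  /-- central component -/
  a : ℤ × ℤ → ZMod 2
  /-- component in the top group -/
  n : ℤ × ℤ

noncomputable instance : Mul GG :=
  ⟨fun x y => ⟨x.v + tr x.n * y.v,
    fun g => x.a g + y.a (g - x.n) + x.v.coeff g * TT (tr x.n * y.v) g, x.n + y.n⟩⟩

noncomputable instance : One GG := ⟨⟨0, 0, 0⟩⟩

noncomputable instance : Inv GG :=
  ⟨fun x => ⟨-(tr (-x.n) * x.v),
    fun g => -x.a (g + x.n) + x.v.coeff (g + x.n) * TT x.v (g + x.n), -x.n⟩⟩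

@[simp] lemma mul_v (x y : GG) : (x * y).v = x.v + tr x.n * y.v := rfl
@[simp] lemma mul_n (x y : GG) : (x * y).n = x.n + y.n := rfl
lemma mul_a (x y : GG) (g : ℤ × ℤ) :
    (x * y).a g = x.a g + y.a (g - x.n) + x.v.coeff g * TT (tr x.n * y.v) g := rfl
@[simp] lemma one_v : (1 : GG).v = 0 := rfl
@[simp] lemma one_n : (1 : GG).n = 0 := rfl
@[simp] lemma one_a (g : ℤ × ℤ) : (1 : GG).a g = 0 := rfl
@[simp] lemma inv_v (x : GG) : (x⁻¹).v = -(tr (-x.n) * x.v) := rfl
@[simp] lemma inv_n (x : GG) : (x⁻¹).n = -x.n := rfl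
lemma inv_a (x : GG) (g : ℤ × ℤ) :
    (x⁻¹).a g = -x.a (g + x.n) + x.v.coeff (g + x.n) * TT x.v (g + x.n) := rfl

noncomputable instance : Group GG := by
  refine Group.ofLeftAxioms ?_ ?_ ?_
  · intro x y z
    ext1
    · simp only [mul_v, mul_n, tr_add]; ring
    · funext g
      simp only [mul_a, mul_v, mul_n, tr_add, mul_add, TT_add, AddMonoidAlgebra.coeff_add,
        Finsupp.add_apply, coeff_tr_mul, mul_assoc, TT_tr]
      have e1 : g - (x.n + y.n) = g - x.n - y.n := by abel
      rw [e1]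
      ring
    · simp only [mul_n]; abel
  · intro x
    ext1
    · simp [tr_zero]
    · funext g
      simp [mul_a]
    · simp
  · intro x
    ext1
    · simp
    · funext g
      simp only [mul_a, inv_a, inv_v, inv_n, one_a, TT_tr, AddMonoidAlgebra.coeff_neg,
        Finsupp.neg_apply, coeff_tr_mul]
      have e1 : g - -x.n = g + x.n := by abel
      rw [e1]
      ring
    · simp

/-- The projection to the top group. -/
noncomputable def nHom : GG →* Multiplicative (ℤ × ℤ) where
  toFun x := Multiplicative.ofAdd x.n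
  map_one' := rfl
  map_mul' _ _ := rfl

lemma zpow_n (x : GG) (j : ℤ) : (x ^ j).n = j • x.n := by
  have h : nHom (x ^ j) = nHom x ^ j := map_zpow nHom x j
  have h2 := congrArg Multiplicative.toAdd h
  simpa [nHom] using h2

/-- Components of a commutator. -/
lemma comm_n (x y : GG) : (⁅x, y⁆).n = 0 := by
  rw [commutatorElement_def]; simp

lemma comm_v (x y : GG) : (⁅x, y⁆).v = (x.v + tr x.n * y.v) - (y.v + tr y.n * x.v) := by
  have h : ⁅x, y⁆ = (x * y) * (y * x)⁻¹ := by
    rw [commutatorElement_def]; group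
  rw [h, mul_v, inv_v, mul_n, mul_n, mul_v, mul_v]
  have e : tr (x.n + y.n) * -(tr (-(y.n + x.n)) * (y.v + tr y.n * x.v)) =
      -(y.v + tr y.n * x.v) := by
    rw [mul_neg, ← mul_assoc, ← tr_add]
    have : x.n + y.n + -(y.n + x.n) = 0 := by abel
    rw [this, tr_zero, one_mul]
  rw [e]; ring

end Pool.Agent.R688.EN
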