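import Mathlib
import Pool.Agent.R688.EN.Grp
import Pool.Agent.R688.EN.Defs

namespace Pool.Agent.R688.EN

open scoped commutatorElement

/-- Elements supported on the lines `c + ℤ n`, `c ∈ F`. -/
noncomputable def UU (F : Finset (ℤ × ℤ)) (n : ℤ × ℤ) : AddSubgroup V where
  carrier := {u | ∀ h, u.coeff h ≠ 0 → ∃ c ∈ F, ∃ j : ℤ, h = c + j • n}
  zero_mem' := by
    intro h hh; simp at hh
  add_mem' := by
    intro u w hu hw h hh
    rw [AddMonoidAlgebra.coeff_add, Finsupp.add_apply] at hh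
    by_cases h1 : u.coeff h = 0
    · rw [h1, zero_add] at hh; exact hw h hh
    · exact hu h h1
  neg_mem' := by
    intro u hu h hh
    rw [AddMonoidAlgebra.coeff_neg, Finsupp.neg_apply, neg_ne_zero] at hh
    exact hu h hh

lemma mem_UU {F : Finset (ℤ × ℤ)} {n : ℤ × ℤ} {u : V} :
    u ∈ UU F n ↔ ∀ h, u.coeff h ≠ 0 → ∃ c ∈ F, ∃ j : ℤ, h = c + j • n := Iff.rfl

lemma UU_tr {F : Finset (ℤ × ℤ)} {n : ℤ × ℤ} {u : V} (hu : u ∈ UU F n) (j : ℤ) :
    tr (j • n) * u ∈ UU F n := by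
  rw [mem_UU] at hu ⊢
  intro h hh
  rw [coeff_tr_mul] at hh
  obtain ⟨c, hc, i, hi⟩ := hu _ hh
  refine ⟨c, hc, i + j, ?_⟩
  rw [add_smul, ← add_assoc, ← hi]
  abel

lemma UU_diff {F : Finset (ℤ × ℤ)} {n : ℤ × ℤ} {u : V} (hu : u ∈ UU F n) (j : ℤ) :
    ∃ u' ∈ UU F n, (tr (j • n) - 1) * u = (tr n - 1) * u' := by
  have hn : ∀ w ∈ UU F n, tr n * w ∈ UU F n := by
    intro w hw
    have := UU_tr hw 1
    rwa [one_smul] at this
  have hn' : ∀ w ∈ UU F n, tr (-n) * w ∈ UU F n := by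
    intro w hw
    have := UU_tr hw (-1)
    rwa [neg_smul, one_smul] at this
  induction j using Int.induction_on with
  | zero => exact ⟨0, zero_mem _, by rw [zero_smul, tr_zero]; ring⟩
  | succ i ih =>
    obtain ⟨w, hw, h⟩ := ih
    refine ⟨tr n * w + u, add_mem (hn w hw) hu, ?_⟩
    rw [add_smul, one_smul, tr_add]
    linear_combination tr n * h
  | pred i ih =>
    obtain ⟨w, hw, h⟩ := ih
    refine ⟨tr (-n) * w - tr (-n) * u, sub_mem (hn' w hw) (hn' u hu), ?_⟩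
    have e : tr (-n) * tr n = 1 := tr_neg_mul n
    have e0 : (-(i : ℤ) - 1) • n = -(i : ℤ) • n + -n := by
      rw [sub_smul, one_smul]; abel
    rw [e0, tr_add]
    linear_combination tr (-n) * h + u * e

lemma pow_two_pow (n : ℤ × ℤ) (t : ℕ) : (tr n - 1) ^ (2 ^ t) = tr (((2 : ℤ) ^ t) • n) - 1 := by
  induction t with
  | zero => simp
  | succ t ih =>
    have h2 : (2 : V) = 0 := two_eq
    rw [pow_succ, pow_mul, ih]
    have e : tr (((2 : ℤ) ^ (t + 1)) • n) = tr (((2 : ℤ) ^ t) • n) * tr (((2 : ℤ) ^ t) • n) := by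
      rw [← tr_add, ← add_smul]
      congr 2
      ring
    rw [e]
    linear_combination (1 - tr (((2 : ℤ) ^ t) • n)) * h2

lemma exists_period (F : Finset (ℤ × ℤ)) (n : ℤ × ℤ) (hn : n ≠ 0) :
    ∃ t : ℕ, ∀ c ∈ F, ∀ c' ∈ F, ∀ j : ℤ,
      ff ((c' - c) + (j + 2 ^ t) • n) = ff ((c' - c) + j • n) := by
  have h : ∀ a : ℤ × ℤ, ∃ s : ℕ, ∀ t : ℕ, s ≤ t → ∀ j : ℤ,
      ff (a + (j + 2 ^ t) • n) = ff (a + j • n) := fun a => ff_line a n hn
  choose s hs using h
  refine ⟨(F ×ˢ F).sup (fun p => s (p.2 - p.1)), ?_⟩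
  intro c hc c' hc' j
  refine hs _ _ ?_ j
  exact Finset.le_sup (f := fun p : (ℤ × ℤ) × (ℤ × ℤ) => s (p.2 - p.1))
    (Finset.mk_mem_product hc hc')

lemma vanish (F : Finset (ℤ × ℤ)) (n : ℤ × ℤ) (t : ℕ)
    (ht : ∀ c ∈ F, ∀ c' ∈ F, ∀ j : ℤ, ff ((c' - c) + (j + 2 ^ t) • n) = ff ((c' - c) + j • n))
    (u : V) (hu : u ∈ UU F n) (g : ℤ × ℤ) :
    ((tr n - 1) ^ (2 ^ t) * u).coeff g * TT ((tr n - 1) ^ (2 ^ t) * u) g = 0 := by
  rw [pow_two_pow]
  by_cases hg : ((tr (((2 : ℤ) ^ t) • n) - 1) * u).coeff g = 0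
  · rw [hg, zero_mul]
  have hz : (tr (((2 : ℤ) ^ t) • n) - 1) * u ∈ UU F n := by
    rw [sub_mul, one_mul]
    exact sub_mem (UU_tr hu _) hu
  obtain ⟨c, hc, j, hj⟩ := hz g hg
  have hT : TT ((tr (((2 : ℤ) ^ t) • n) - 1) * u) g = 0 := by
    rw [sub_mul, one_mul, sub_eq_add_neg, TT_add, TT_neg, TT_tr, ← sub_eq_add_neg, sub_eq_zero]
    unfold TT
    apply Finsupp.sum_congr
    intro h hh
    rw [Finsupp.mem_support_iff] at hh
    obtain ⟨c', hc', j', hj'⟩ := hu h hh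
    congr 1
    have e1 : h - (g - (2 : ℤ) ^ t • n) = (c' - c) + ((j' - j) + 2 ^ t) • n := by
      rw [hj, hj', add_smul, sub_smul]; abel
    have e2 : h - g = (c' - c) + (j' - j) • n := by
      rw [hj, hj', sub_smul]; abel
    rw [e1, e2]
    exact ht c hc c' hc' (j' - j)
  rw [hT, mul_zero]

lemma sq_one (g : GG) (hn : g.n = 0) (h : ∀ x, g.v.coeff x * TT g.v x = 0) : g ^ 2 = 1 := by
  rw [pow_two]
  have h2 : (2 : V) = 0 := two_eq
  ext1
  · rw [mul_v, hn, tr_zero, one_v]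
    linear_combination g.v * h2
  · funext x
    rw [mul_a, hn, tr_zero, one_mul, h x, sub_zero, add_zero, one_a]
    generalize g.a x = z
    revert z
    decide
  · simp [hn]

lemma expNil_of (H : Type) [Group H] (k : ℕ)
    (h : ∀ g ∈ (⊤ : Subgroup H).lowerCentralSeries k, g ^ 2 = 1) : ExpNil 2 H := by
  refine ⟨(⊤ : Subgroup H).lowerCentralSeries k, inferInstance, h, ?_⟩
  rw [Subgroup.nilpotent_iff_lowerCentralSeries]
  refine ⟨k, ?_⟩
  have hm := Subgroup.map_lowerCentralSeries (⊤ : Subgroup H)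
    (QuotientGroup.mk' ((⊤ : Subgroup H).lowerCentralSeries k)) k
  have ht : (⊤ : Subgroup H).map (QuotientGroup.mk' ((⊤ : Subgroup H).lowerCentralSeries k)) = ⊤ :=
    Subgroup.map_top_of_surjective _ (QuotientGroup.mk'_surjective _)
  rw [ht] at hm
  rw [← hm]
  exact QuotientGroup.map_mk'_self _

/-- The descending subgroups. -/
noncomputable def SS (F : Finset (ℤ × ℤ)) (n : ℤ × ℤ) (k : ℕ) : Subgroup GG where
  carrier := {g | g.n = 0 ∧ ∃ u ∈ UU F n, g.v = (tr n - 1) ^ k * u}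
  one_mem' := ⟨rfl, 0, zero_mem _, by simp⟩
  mul_mem' := by
    rintro g h ⟨hg, u, hu, hgu⟩ ⟨hh, w, hw, hhw⟩
    refine ⟨by simp [hg, hh], u + w, add_mem hu hw, ?_⟩
    rw [mul_v, hg, tr_zero, hgu, hhw]; ring
  inv_mem' := by
    rintro g ⟨hg, u, hu, hgu⟩
    refine ⟨by simp [hg], -u, neg_mem hu, ?_⟩
    rw [inv_v, hg, neg_zero, tr_zero, hgu]; ring

lemma mem_SS {F : Finset (ℤ × ℤ)} {n : ℤ × ℤ} {k : ℕ} {g : GG} :
    g ∈ SS F n k ↔ g.n = 0 ∧ ∃ u ∈ UU F n, g.v = (tr n - 1) ^ k * u := Iff.rfl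

/-- The elements of `⟨x, U⟩`. -/
def DD (F : Finset (ℤ × ℤ)) (x g : GG) : Prop :=
  ∃ j : ℤ, g.n = j • x.n ∧ g.v - (x ^ j).v ∈ UU F x.n

lemma DD_closure (x y : GG) (g : GG) (hg : g ∈ Subgroup.closure ({x, y⁻¹ * x * y} : Set GG)) :
    DD ((y⁻¹ * x * y).v - x.v).coeff.support x g := by
  set F := ((y⁻¹ * x * y).v - x.v).coeff.support with hF
  induction hg using Subgroup.closure_induction with
  | mem g hg =>
    rcases hg with rfl | rfl
    · exact ⟨1, by simp, by rw [zpow_one, sub_self]; exact zero_mem _⟩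
    · refine ⟨1, by simp, ?_⟩
      rw [zpow_one, mem_UU]
      intro h hh
      exact ⟨h, by rw [hF, Finsupp.mem_support_iff]; exact hh, 0, by simp⟩
  | one => exact ⟨0, by simp, by simp⟩
  | mul g h _ _ ihg ihh =>
    obtain ⟨i, hi1, hi2⟩ := ihg
    obtain ⟨j, hj1, hj2⟩ := ihh
    refine ⟨i + j, by rw [mul_n, hi1, hj1, add_smul], ?_⟩
    rw [zpow_add, mul_v, mul_v, zpow_n, hi1]
    have e : g.v + tr (i • x.n) * h.v - ((x ^ i).v + tr (i • x.n) * (x ^ j).v) =
        (g.v - (x ^ i).v) + tr (i • x.n) * (h.v - (x ^ j).v) := by ring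
    rw [e]
    exact add_mem hi2 (UU_tr hj2 i)
  | inv g _ ih =>
    obtain ⟨i, hi1, hi2⟩ := ih
    refine ⟨-i, by rw [inv_n, hi1, neg_smul], ?_⟩
    rw [zpow_neg, inv_v, inv_v, zpow_n, hi1]
    have e : -(tr (-(i • x.n)) * g.v) - -(tr (-(i • x.n)) * (x ^ i).v) =
        -(tr ((-i) • x.n) * (g.v - (x ^ i).v)) := by rw [neg_smul]; ring
    rw [e]
    exact neg_mem (UU_tr hi2 (-i))

/-- Main step. -/
theorem expNil_main (H : Type) [Group H] (ι : H →* GG) (hι : Function.Injective ι) (x y : GG)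
    (hgen : ∀ h : H, ι h ∈ Subgroup.closure ({x, y⁻¹ * x * y} : Set GG)) : ExpNil 2 H := by
  set F := ((y⁻¹ * x * y).v - x.v).coeff.support with hF
  have hD : ∀ h : H, DD F x (ι h) := fun h => DD_closure x y _ (hgen h)
  by_cases hn : x.n = 0
  · refine expNil_of H 1 ?_
    intro g hg
    apply hι
    rw [map_pow, map_one]
    have hle : (⊤ : Subgroup H).lowerCentralSeries 1 ≤ (SS ∅ 0 0).comap ι := by
      rw [Subgroup.lowerCentralSeries_succ, Subgroup.lowerCentralSeries_zero,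
        Subgroup.commutator_le]
      intro p _ q _
      rw [Subgroup.mem_comap, map_commutatorElement, mem_SS]
      refine ⟨comm_n _ _, 0, zero_mem _, ?_⟩
      obtain ⟨i, hi, _⟩ := hD p
      obtain ⟨j, hj, _⟩ := hD q
      rw [comm_v, hi, hj, hn, smul_zero, smul_zero, tr_zero]; ring
    obtain ⟨h1, u, hu, h2⟩ := hle hg
    have hu0 : u = 0 := by
      rw [← AddMonoidAlgebra.coeff_inj]
      ext h
      by_contra hne
      obtain ⟨c, hc, _⟩ := hu h (by simpa using hne)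
      simp at hc
    refine sq_one _ h1 ?_
    intro z
    rw [h2, hu0]; simp
  · have hk : ∀ k : ℕ, (⊤ : Subgroup H).lowerCentralSeries (k + 1) ≤ (SS F x.n k).comap ι := by
      intro k
      induction k with
      | zero =>
        rw [Subgroup.lowerCentralSeries_succ, Subgroup.lowerCentralSeries_zero,
          Subgroup.commutator_le]
        intro p _ q _
        rw [Subgroup.mem_comap, map_commutatorElement, mem_SS]
        refine ⟨comm_n _ _, ?_⟩
        obtain ⟨i, hi, hi2⟩ := hD p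
        obtain ⟨j, hj, hj2⟩ := hD q
        refine ⟨_, ?_, (by rw [pow_zero, one_mul] : (⁅ι p, ι q⁆).v = (tr x.n - 1) ^ 0 * (⁅ι p, ι q⁆).v)⟩
        have hc : (x ^ i).v + tr (i • x.n) * (x ^ j).v = (x ^ j).v + tr (j • x.n) * (x ^ i).v := by
          have h1 : x ^ i * x ^ j = x ^ j * x ^ i := by rw [← zpow_add, ← zpow_add, add_comm]
          have h2 := congrArg GG.v h1
          rwa [mul_v, mul_v, zpow_n, zpow_n] at h2
        have e : (⁅ι p, ι q⁆).v = ((ι p).v - (x ^ i).v) + tr (i • x.n) * ((ι q).v - (x ^ j).v)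
            - (((ι q).v - (x ^ j).v) + tr (j • x.n) * ((ι p).v - (x ^ i).v)) := by
          rw [comm_v, hi, hj]
          linear_combination hc
        rw [e]
        exact sub_mem (add_mem hi2 (UU_tr hj2 i)) (add_mem hj2 (UU_tr hi2 j))
      | succ k ih =>
        rw [Subgroup.lowerCentralSeries_succ, Subgroup.commutator_le]
        intro p hp q _
        rw [Subgroup.mem_comap, map_commutatorElement, mem_SS]
        refine ⟨comm_n _ _, ?_⟩
        obtain ⟨h1, u, hu, h2⟩ := ih hp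
        obtain ⟨j, hj, hj2⟩ := hD q
        obtain ⟨u', hu', h3⟩ := UU_diff hu j
        refine ⟨-u', neg_mem hu', ?_⟩
        rw [comm_v, h1, hj, h2, tr_zero, pow_succ]
        linear_combination (-(tr x.n - 1) ^ k) * h3
    obtain ⟨t, ht⟩ := exists_period F x.n hn
    refine expNil_of H (2 ^ t + 1) ?_
    intro g hg
    apply hι
    rw [map_pow, map_one]
    obtain ⟨h1, u, hu, h2⟩ := hk (2 ^ t) hg
    refine sq_one _ h1 ?_
    intro z
    rw [h2]
    exact vanish F x.n t ht u hu z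

/-- Every subgroup of `GG` has the property `InfStar 2`. -/
theorem infStar_subgroup (G : Subgroup GG) : InfStar 2 G := by
  intro S hS
  obtain ⟨x, hx, y, hy, hxy⟩ := hS.nontrivial
  refine ⟨x, hx, y, hy, hxy, ?_⟩
  refine expNil_main _ (G.subtype.comp (Subgroup.subtype _)) ?_ (x : GG) (y : GG) ?_
  · exact (Subgroup.subtype_injective _).comp (Subgroup.subtype_injective _)
  · intro h
    have h1 : (G.subtype ((Subgroup.subtype _) h)) ∈
        (Subgroup.closure ({x, y⁻¹ * x * y} : Set G)).map G.subtype :=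
      Subgroup.mem_map_of_mem _ h.2
    rw [MonoidHom.map_closure, Set.image_pair] at h1
    simpa using h1

end Pool.Agent.R688.EN
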