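import Mathlib
import Pool.Agent.R688.EN.Star

namespace Pool.Agent.R688.EN

open scoped commutatorElement

/-- generator of the base -/
noncomputable def gE : GG := ⟨1, 0, 0⟩
/-- first translation -/
noncomputable def gT1 : GG := ⟨0, 0, (1, 0)⟩
/-- second translation -/
noncomputable def gT2 : GG := ⟨0, 0, (0, 1)⟩

/-- The group of the counterexample. -/
noncomputable def G0 : Subgroup GG := Subgroup.closure {gE, gT1, gT2}

lemma gE_mem : gE ∈ G0 := Subgroup.subset_closure (by simp)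
lemma gT1_mem : gT1 ∈ G0 := Subgroup.subset_closure (by simp)
lemma gT2_mem : gT2 ∈ G0 := Subgroup.subset_closure (by simp)

/-- Elements with zero `v` component. -/
noncomputable def ZV : Subgroup GG where
  carrier := {g | g.v = 0}
  one_mem' := rfl
  mul_mem' := by
    intro a b ha hb
    simp only [Set.mem_ofPred_eq] at ha hb ⊢
    rw [mul_v, ha, hb]; simp
  inv_mem' := by
    intro a ha
    simp only [Set.mem_ofPred_eq] at ha ⊢
    rw [inv_v, ha]; simp

lemma zpow_v_zero (g : GG) (hg : g.v = 0) (j : ℤ) : (g ^ j).v = 0 :=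
  ZV.zpow_mem (show g ∈ ZV from hg) j

lemma exists_trans (a : ℤ × ℤ) : ∃ g ∈ G0, g.v = 0 ∧ g.n = a := by
  refine ⟨gT1 ^ a.1 * gT2 ^ a.2, G0.mul_mem (G0.zpow_mem gT1_mem _) (G0.zpow_mem gT2_mem _), ?_, ?_⟩
  · rw [mul_v, zpow_v_zero gT1 rfl, zpow_v_zero gT2 rfl]; simp
  · rw [mul_n, zpow_n, zpow_n]
    ext <;> simp [gT1, gT2]

/-- iterated commutators -/
noncomputable def cc : ℕ → GG
  | 0 => gE
  | (i + 1) => ⁅cc i, gT1⁆

lemma cc_mem (i : ℕ) : cc i ∈ G0 := by
  induction i with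
  | zero => exact gE_mem
  | succ i ih =>
    rw [cc, commutatorElement_def]
    exact G0.mul_mem (G0.mul_mem (G0.mul_mem ih gT1_mem) (G0.inv_mem ih)) (G0.inv_mem gT1_mem)

lemma cc_n (i : ℕ) : (cc i).n = 0 := by
  cases i with
  | zero => rfl
  | succ i => rw [cc]; exact comm_n _ _

lemma cc_v (i : ℕ) : (cc i).v = (tr (1, 0) - 1) ^ i := by
  induction i with
  | zero => simp [cc, gE]
  | succ i ih =>
    have h2 : (2 : V) = 0 := two_eq
    rw [cc, comm_v, cc_n, ih]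
    have e1 : gT1.v = 0 := rfl
    have e2 : gT1.n = (1, 0) := rfl
    rw [e1, e2, pow_succ]
    linear_combination ((tr (1, 0) - 1) ^ i - (tr (1, 0) - 1) ^ i * tr (1, 0)) * h2

lemma coeff_tr (b : ℤ × ℤ) : (tr b).coeff 0 = if b = 0 then 1 else 0 := by
  unfold tr
  rw [AddMonoidAlgebra.coeff_single, Finsupp.single_apply]

lemma TT_tr0 (b : ℤ × ℤ) : TT (tr b) 0 = ff b := by
  unfold tr
  rw [TT_single, one_mul, sub_zero]

theorem not_expFinNil : ¬ ExpFinNil 2 G0 := by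
  rintro ⟨L, hL, hL2, F, hF, hFfin, hnil⟩
  obtain ⟨k, hk⟩ := Subgroup.nilpotent_iff_lowerCentralSeries.mp hnil
  set φ : G0 →* G0 ⧸ L := QuotientGroup.mk' L with hφ
  set ψ : (G0 ⧸ L) →* (G0 ⧸ L) ⧸ F := QuotientGroup.mk' F with hψ
  set c : ℕ → G0 := fun i => ⟨cc i, cc_mem i⟩ with hc
  set t : G0 := ⟨gT1, gT1_mem⟩ with ht
  have hcs : ∀ i, c (i + 1) = ⁅c i, t⁆ := by
    intro i
    apply Subtype.ext
    rfl
  have h1 : ∀ i, ψ (φ (c i)) ∈ (⊤ : Subgroup ((G0 ⧸ L) ⧸ F)).lowerCentralSeries i := by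
    intro i
    induction i with
    | zero => exact Subgroup.mem_top _
    | succ i ih =>
      rw [hcs, map_commutatorElement, map_commutatorElement, Subgroup.lowerCentralSeries_succ]
      exact Subgroup.commutator_mem_commutator ih (Subgroup.mem_top _)
  have h2 : φ (c (2 ^ k)) ∈ F := by
    have h3 := Subgroup.lowerCentralSeries_antitone (⊤ : Subgroup ((G0 ⧸ L) ⧸ F))
      (Nat.lt_two_pow_self (n := k)).le (h1 (2 ^ k))
    rw [hk, Subgroup.mem_bot] at h3
    exact (QuotientGroup.eq_one_iff _).mp h3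
  have : Finite (MulAut F) := Finite.of_injective _ MulEquiv.toEquiv_injective
  obtain ⟨M, hM, hM1⟩ := isOfFinOrder_iff_pow_eq_one.mp
    (isOfFinOrder_of_finite (MulAut.conjNormal (φ t) : MulAut F))
  have hfix : ∀ z : G0, φ z ∈ F → ⁅z, t ^ M⁆ ∈ L := by
    intro z hz
    have h4 : (MulAut.conjNormal ((φ t) ^ M) : MulAut F) ⟨φ z, hz⟩ = ⟨φ z, hz⟩ := by
      rw [map_pow, hM1]; rfl
    have h5 := congrArg Subtype.val h4
    rw [MulAut.conjNormal_apply] at h5
    simp only at h5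
    rw [← QuotientGroup.eq_one_iff]
    have h6 : φ ⁅z, t ^ M⁆ = 1 := by
      rw [map_commutatorElement, map_pow, commutatorElement_def]
      have h7 : φ t ^ M * φ z = φ z * φ t ^ M := by
        rw [mul_inv_eq_iff_eq_mul] at h5
        exact h5
      rw [← h7]; group
    exact h6
  -- the elements of L
  have key : ∀ a : ℤ × ℤ, ∃ l : G0, l ∈ L ∧ (l : GG).n = 0 ∧
      (l : GG).v = tr (a + (((2 ^ k : ℕ) : ℤ), 0)) - tr a - tr (a + (((M + 2 ^ k : ℕ) : ℤ), 0))
        + tr (a + ((M : ℤ), 0)) := by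
    intro a
    obtain ⟨g, hg, hgv, hgn⟩ := exists_trans a
    set g' : G0 := ⟨g, hg⟩ with hg'
    set z : G0 := g' * c (2 ^ k) * g'⁻¹ with hz
    have hzF : φ z ∈ F := by
      rw [hz, map_mul, map_mul, map_inv]
      exact hF.conj_mem _ h2 _
    refine ⟨⁅z, t ^ M⁆, hfix z hzF, ?_, ?_⟩
    · exact comm_n _ _
    · have e0 : ((⁅z, t ^ M⁆ : G0) : GG) = ⁅(z : GG), gT1 ^ (M : ℤ)⁆ := by
        rw [zpow_natCast]; rfl
      have ez : (z : GG) = g * cc (2 ^ k) * g⁻¹ := rfl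
      have ezn : (z : GG).n = 0 := by
        rw [ez, mul_n, mul_n, cc_n, inv_n]; simp
      have ezv : (z : GG).v = tr a * (tr (((2 : ℤ) ^ k) • ((1 : ℤ), (0 : ℤ))) - 1) := by
        rw [ez, mul_v, mul_v, inv_v, hgv, cc_v, hgn, pow_two_pow]; simp
      rw [e0, comm_v, ezn, ezv, zpow_v_zero gT1 rfl, zpow_n]
      have e1 : (M : ℤ) • gT1.n = ((M : ℤ), 0) := by
        ext <;> simp [gT1]
      have e2 : ((2 : ℤ) ^ k) • ((1 : ℤ), (0 : ℤ)) = (((2 ^ k : ℕ) : ℤ), 0) := by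
        ext <;> simp
      have e3 : tr (a + (((M + 2 ^ k : ℕ) : ℤ), 0)) =
          tr ((M : ℤ), 0) * tr a * tr (((2 ^ k : ℕ) : ℤ), 0) := by
        rw [← tr_add, ← tr_add]
        congr 1
        ext
        · push_cast; simp; ring
        · simp
      rw [e1, e2, e3, tr_add, tr_add]
      ring
  obtain ⟨a, ha2, haf⟩ := ff_point (2 ^ k) M (by positivity) hM
  obtain ⟨l0, hl0, hl0n, hl0v⟩ := key 0
  obtain ⟨la, hla, hlan, hlav⟩ := key a
  have hcomm : l0 * la = la * l0 := by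
    have s1 : l0⁻¹ = l0 := inv_eq_of_mul_eq_one_left (by rw [← pow_two]; exact hL2 _ hl0)
    have s2 : la⁻¹ = la := inv_eq_of_mul_eq_one_left (by rw [← pow_two]; exact hL2 _ hla)
    have s3 : (l0 * la)⁻¹ = l0 * la :=
      inv_eq_of_mul_eq_one_left (by rw [← pow_two]; exact hL2 _ (L.mul_mem hl0 hla))
    rw [← s3, mul_inv_rev, s1, s2]
  have hcomm' : (l0 : GG) * (la : GG) = (la : GG) * (l0 : GG) := congrArg Subtype.val hcomm
  have hA := congrFun (congrArg GG.a hcomm') 0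
  rw [mul_a, mul_a, hl0n, hlan, tr_zero, one_mul, one_mul, sub_zero] at hA
  have hA' : (l0 : GG).v.coeff 0 * TT (la : GG).v 0 = (la : GG).v.coeff 0 * TT (l0 : GG).v 0 := by
    linear_combination hA
  have hT : TT (la : GG).v 0 = 1 := by
    rw [hlav, TT_add, sub_eq_add_neg, sub_eq_add_neg, TT_add, TT_add, TT_neg, TT_neg,
      TT_tr0, TT_tr0, TT_tr0, TT_tr0]
    have h8 : ∀ p q r s : ZMod 2, p + q + r + s = 1 → q + -p + -s + r = 1 := by decide
    exact h8 _ _ _ _ haf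
  have hla0 : (la : GG).v.coeff 0 = 0 := by
    rw [hlav]
    have hne : ∀ b : ℤ, a + ((b : ℤ), (0 : ℤ)) ≠ 0 := by
      intro b hb
      apply ha2
      have := congrArg Prod.snd hb
      simpa using this
    have hne0 : a ≠ 0 := by
      intro hb; apply ha2; rw [hb]; rfl
    simp only [AddMonoidAlgebra.coeff_add, AddMonoidAlgebra.coeff_sub, Finsupp.add_apply,
      Finsupp.sub_apply, coeff_tr, if_neg (hne _), if_neg hne0]
    simp
  have hl00 : (l0 : GG).v.coeff 0 = -1 := by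
    rw [hl0v]
    have hne : ∀ b : ℕ, 0 < b → (0 : ℤ × ℤ) + ((b : ℤ), (0 : ℤ)) ≠ 0 := by
      intro b hb h
      have := congrArg Prod.fst h
      simp at this
      omega
    simp only [AddMonoidAlgebra.coeff_add, AddMonoidAlgebra.coeff_sub, Finsupp.add_apply,
      Finsupp.sub_apply, coeff_tr, if_neg (hne M hM), if_neg (hne (2 ^ k) (by positivity)),
      if_neg (hne (M + 2 ^ k) (Nat.add_pos_left hM _)), if_true]
    simp
  rw [hT, hla0, hl00, zero_mul] at hA'
  exact absurd hA' (by decide)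

end Pool.Agent.R688.EN
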