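import Mathlib
import Pool.Agent.R688.EN.Neg

namespace Pool.Agent.R688.EN

open scoped commutatorElement

/-- The base. -/
noncomputable def KN : Subgroup GG where
  carrier := {g | g.n = 0}
  one_mem' := rfl
  mul_mem' := by
    intro a b ha hb
    simp only [Set.mem_ofPred_eq] at ha hb ⊢
    rw [mul_n, ha, hb]; simp
  inv_mem' := by
    intro a ha
    simp only [Set.mem_ofPred_eq] at ha ⊢
    rw [inv_n, ha]; simp

/-- The centre of the base. -/
noncomputable def KA : Subgroup GG where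
  carrier := {g | g.n = 0 ∧ g.v = 0}
  one_mem' := ⟨rfl, rfl⟩
  mul_mem' := by
    rintro a b ⟨ha, ha'⟩ ⟨hb, hb'⟩
    refine ⟨by rw [mul_n, ha, hb]; simp, by rw [mul_v, ha', hb']; simp⟩
  inv_mem' := by
    rintro a ⟨ha, ha'⟩
    refine ⟨by rw [inv_n, ha]; simp, by rw [inv_v, ha']; simp⟩

lemma derived_one : derivedSeries GG 1 ≤ KN := by
  rw [derivedSeries_succ, Subgroup.commutator_le]
  intro p _ q _
  exact comm_n p q

lemma derived_two : derivedSeries GG 2 ≤ KA := by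
  rw [derivedSeries_succ, Subgroup.commutator_le]
  intro p hp q hq
  have hp' : p.n = 0 := derived_one hp
  have hq' : q.n = 0 := derived_one hq
  refine ⟨comm_n p q, ?_⟩
  rw [comm_v, hp', hq', tr_zero]; ring

lemma derived_three : derivedSeries GG 3 ≤ ⊥ := by
  rw [derivedSeries_succ, Subgroup.commutator_le]
  intro p hp q hq
  obtain ⟨hp1, hp2⟩ := derived_two hp
  obtain ⟨hq1, hq2⟩ := derived_two hq
  rw [Subgroup.mem_bot, commutatorElement_eq_one_iff_mul_comm]
  ext1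
  · rw [mul_v, mul_v, hp2, hq2]; simp
  · funext g
    rw [mul_a, mul_a, hp1, hq1, hp2, hq2]
    simp [add_comm]
  · rw [mul_n, mul_n, add_comm]

instance : Group.IsSolvable GG := (Group.isSolvable_def GG).mpr ⟨3, le_bot_iff.mp derived_three⟩

lemma pow_four (g : GG) (hg : g.n = 0) : g ^ 4 = 1 := by
  have h2 : (2 : V) = 0 := two_eq
  have e : g ^ 4 = (g ^ 2) ^ 2 := by rw [← pow_mul]
  rw [e]
  have hv : (g ^ 2).v = 0 := by
    rw [pow_two, mul_v, hg, tr_zero]
    linear_combination g.v * h2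
  refine sq_one _ ?_ ?_
  · rw [pow_two, mul_n, hg]; simp
  · intro x; rw [hv]; simp

lemma pow_two_of (m : ℕ) (hm : m % 4 = 2) (g : GG) (hg : g ^ m = 1) : g ^ 2 = 1 := by
  have hn : g.n = 0 := by
    have h1 : (g ^ (m : ℤ)).n = (m : ℤ) • g.n := zpow_n g m
    rw [zpow_natCast, hg, one_n] at h1
    rcases smul_eq_zero.mp h1.symm with h2 | h2
    · omega
    · exact h2
  obtain ⟨r, hr⟩ : ∃ r, m = 4 * r + 2 := ⟨m / 4, by omega⟩
  rw [hr, pow_add, pow_mul, pow_four g hn, one_pow, one_mul] at hg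
  exact hg

lemma ExpNil_mul {H : Type} [Group H] (m : ℕ) (hm : m % 4 = 2) (h : ExpNil 2 H) : ExpNil m H := by
  obtain ⟨K, hK, h1, h2⟩ := h
  refine ⟨K, hK, ?_, h2⟩
  intro g hg
  obtain ⟨r, hr⟩ : ∃ r, m = 2 * r := ⟨m / 2, by omega⟩
  rw [hr, pow_mul, h1 g hg, one_pow]

lemma infStar (m : ℕ) (hm : m % 4 = 2) : InfStar m G0 := by
  intro S hS
  obtain ⟨x, hx, y, hy, hxy, h⟩ := infStar_subgroup G0 S hS
  exact ⟨x, hx, y, hy, hxy, ExpNil_mul m hm h⟩

lemma not_expFinNil_m (m : ℕ) (hm : m % 4 = 2) : ¬ ExpFinNil m G0 := by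
  rintro ⟨L, hL, h1, h2⟩
  apply not_expFinNil
  refine ⟨L, hL, ?_, h2⟩
  intro g hg
  apply Subtype.ext
  have h3 := congrArg Subtype.val (h1 g hg)
  exact pow_two_of m hm (g : GG) (by simpa using h3)

/-- The counterexample, for all `m` congruent to `2` modulo `4`. -/
theorem main : ∃ (G : Type) (_ : Group G), Group.FG G ∧ Group.IsSolvable G ∧
    ∀ m : ℕ, m % 4 = 2 → InfStar m G ∧ ¬ ExpFinNil m G := by
  refine ⟨G0, inferInstance, ?_, inferInstance, fun m hm => ⟨infStar m hm, not_expFinNil_m m hm⟩⟩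
  exact Group.closure_finite_fg _

end Pool.Agent.R688.EN
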